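import Pool.Agent.X39.Near.MasterZ
import Pool.Agent.X255.RH.LogR

/-!
# A measure of algebraic independence for the logarithms of ALL algebraic numbers close to any number outside a set of dimension zero

Let `P_j`, `Q_j` be nonzero polynomials such that the rational functions `P_j / Q_j` are multiplicatively independent
modulo constants, and let `l_j` be a branch of `log (P_j / Q_j)` on a connected open set `V`. If the `P_j`, `Q_j` have
algebraic coefficients and `t` is algebraic, then `l_j (t)` is a logarithm of an algebraic number. The problem asks for a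
lower bound `|P (l_1, …, l_n)| ≥ H ^ (-C)` for all nonzero integral polynomials `P` of bounded degree and height at most
`H`. Outside ONE set of complex numbers `x` of Hausdorff dimension `0`, for all number fields `F ⊂ ℂ`, all `k ≥ 1` and
`ω > 0` there are `C` and `T₁` such that for all `T ≥ T₁` and ALL `t ∈ F` of height at most `T` with `|t - x| ≤ T ^ (-ω)`
this inequality holds at `t` for all polynomials of degree at most `k` and all heights `H` between `T ^ (1 / k)` and `T ^ k`.
More generally the coefficients may be polynomials of bounded degree in the `u_i(t) / w(t)` and in given complex numbers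
`ξ_i`, with coefficients in `F` of height at most `T ^ A`. In particular this holds at the convergents of all irrational
real numbers in `V` outside this set, from some point on.
-/

set_option autoImplicit false

open Polynomial MeasureTheory NumberField

namespace Pool.Agent.Results.MP_3cf473_nt.ApproximationsOfAllNumbers

open Pool.Agent.X39.Near (Size Dependent Inequality)

/-- On the connected open set `V`, `l_j` is a branch of `log (P_j / Q_j)`, and the rational functions `P_j / Q_j` are
multiplicatively independent modulo constants: if `∏ P_j ^ m_j * Q_j ^ n_j = c * ∏ P_j ^ n_j * Q_j ^ m_j` then `m = n`. -/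
structure Branches (V : Set ℂ) {r : ℕ} (P Q : Fin r → ℂ[X]) (l : Fin r → ℂ → ℂ) : Prop where
  isOpen : IsOpen V
  isPreconnected : IsPreconnected V
  nonempty : V.Nonempty
  P_ne : ∀ j, P j ≠ 0
  Q_ne : ∀ j, Q j ≠ 0
  independent : ∀ (m n : Fin r → ℕ) (c : ℂ), ∏ j, P j ^ m j * Q j ^ n j = C c * ∏ j, P j ^ n j * Q j ^ m j → m = n
  analytic : ∀ j, AnalyticOnNhd ℂ (l j) V
  exp_l : ∀ j, ∀ x ∈ V, Complex.exp (l j x) * (Q j).eval x = (P j).eval x

/-- **Theorem.** Let `l_j` be branches on `V` of the logarithms of rational functions multiplicatively independent modulo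
constants, let `u_k`, `w` be complex polynomials, `w` without zeros on `V`, and `ξ_1, …, ξ_g` complex numbers. There is a
set `E` of complex numbers of Hausdorff dimension `0` such that for all `x ∈ V` outside `E`:
(1) for all number fields `F` with an embedding `ι` in `ℂ`, all `k ≥ 1` and `ω > 0` there are `C`, `T₁` such that for all
`T ≥ T₁` and all `t ∈ F`, quotients of integers with conjugates at most `T`, with `|ι t - x| ≤ T ^ (-ω)`, every nonzero
integral polynomial `P` of total degree at most `k` and height at most `H`, where `T ^ (1 / k) ≤ H ≤ T ^ k`, satisfies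
`|P (l_1(t), …, l_r(t))| ≥ H ^ (-C)`;
(2) for all such `F`, `ι`, all `d`, `A` and `ω > 0` there are `B`, `T₁` such that for all `T ≥ T₁` and all such `t` the
numbers `l_j(t)` are not dependent (coefficients of degree at most `d` in the `u_k(t) / w(t)` and `ξ_i`);
(3) if `x` is real and irrational, for all `d`, `A` there is `B` such that the `l_j` at the convergents of `x` are not
dependent over `ℚ`, at the level of the denominator, from some point on. -/
theorem result {r q g : ℕ} (V : Set ℂ) (P Q : Fin r → ℂ[X]) (l : Fin r → ℂ → ℂ) (hB : Branches V P Q l)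
    (u : Fin q → Polynomial ℂ) (w : Polynomial ℂ) (hw : ∀ t ∈ V, w.eval t ≠ 0) (ξ : Fin g → ℂ) :
    ∃ E : Set ℂ, dimH E = 0 ∧
      (∀ x ∈ V, x ∉ E → ∀ (F : Type) [Field F] [NumberField F] (ι : F →+* ℂ)
        (k : ℕ) (ω : ℝ), 1 ≤ k → 0 < ω → ∃ C T₁ : ℝ, ∀ T : ℝ, T₁ ≤ T → ∀ t : F, Size F T t →
          ‖ι t - x‖ ≤ T ^ (-ω) → Inequality k C T (fun j => l j (ι t))) ∧
      (∀ x ∈ V, x ∉ E → ∀ (F : Type) [Field F] [NumberField F] (ι : F →+* ℂ)
        (d A : ℕ) (ω : ℝ), 0 < ω → ∃ B T₁ : ℝ, ∀ T : ℝ, T₁ ≤ T → ∀ t : F, Size F T t →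
          ‖ι t - x‖ ≤ T ^ (-ω) → ¬ Dependent l u w ξ F ι d A B T t) ∧
      ∀ x : ℝ, Irrational x → (x : ℂ) ∈ V → (x : ℂ) ∉ E → ∀ d A : ℕ, ∃ (B : ℝ) (n₀ : ℕ), ∀ k : ℕ,
        n₀ ≤ k → ¬ Dependent l u w ξ ℚ (algebraMap ℚ ℂ) d A B (x.convergent k).den
          (x.convergent k) := by
  obtain ⟨E, h1, h2, h3⟩ := Pool.Agent.X39.Near.master_indep V hB.isOpen hB.isPreconnected l hB.analytic
    (Pool.Agent.X255.RH.logR_indep hB.isPreconnected hB.isOpen hB.nonempty P Q hB.P_ne hB.Q_ne hB.independent l
      hB.analytic hB.exp_l) u w hw ξ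
  exact ⟨E, h1, Pool.Agent.X39.Near.ineq_of h2, h2, h3⟩

end Pool.Agent.Results.MP_3cf473_nt.ApproximationsOfAllNumbers
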