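import Pool.Agent.X255.RH.Mea3
import Pool.Agent.X255.RH.LogR
import Pool.Agent.X255.RH.Loc

/-!
# Logarithms of conjugate algebraic numbers: a measure of algebraic independence for 100% of them

Let `P_j`, `Q_j` be nonzero polynomials such that the rational functions `P_j / Q_j` are multiplicatively independent
modulo constants, and let `l_j` be a branch of `log (P_j / Q_j)` on a connected open set `V`. If the `P_j`, `Q_j` have
algebraic coefficients and `x` is algebraic, then `l_j (x)` is a logarithm of an algebraic number. The problem asks for a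
lower bound `|P (l_1, …, l_n)| ≥ H ^ (-C)` for all nonzero integral polynomials `P` of bounded degree and height at most
`H`, for linearly independent logarithms of algebraic numbers.

We prove this inequality, for polynomials whose height is between `T ^ (1 / k)` and `T ^ k`, for the numbers `l_j (x)`,
where `x` runs over ALL roots (in `V`, at distance at least `1 / (k + 1)` from the complement of `V`) of an integral
polynomial of degree `g` with coefficients of absolute value at most `T`, for all but a proportion `1 / k` of these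
polynomials, `k` arbitrary, with a constant `C` which depends only on `k`, `g`, `V` and the functions.
More generally we admit coefficients `∑ ξ_b c_b`, `ξ_b` arbitrary complex numbers, `c_b` integers.

Proof: a nonstandard version of the Bombieri-Pila method for approximate relations (`Pool.Agent.Y890.MV`), applied to the
branches of the roots as functions of the coefficients, and `Pool.Agent.X255.RH` (independence of functions of different
roots; almost no integral polynomial has close roots; logarithms of multiplicatively independent rational functions).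
-/

set_option autoImplicit false

open Polynomial Filter
open scoped Classical

namespace Pool.Agent.Results.MP_3cf473_nt.ConjugateLogarithms

/-- On the connected open set `V`, `l_j` is a branch of `log (P_j / Q_j)`, and the rational functions `P_j / Q_j` are
multiplicatively independent modulo constants: if `∏ P_j ^ m_j * Q_j ^ n_j = c * ∏ P_j ^ n_j * Q_j ^ m_j` then `m = n`. -/
structure Branches (V : Set ℂ) {r : ℕ} (P Q : Fin r → ℂ[X]) (l : Fin r → ℂ → ℂ) : Prop where
  isOpen : IsOpen V
  isPreconnected : IsPreconnected V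
  nonempty : V.Nonempty
  P_ne : ∀ j, P j ≠ 0
  Q_ne : ∀ j, Q j ≠ 0
  independent : ∀ (m n : Fin r → ℕ) (c : ℂ), ∏ j, P j ^ m j * Q j ^ n j = C c * ∏ j, P j ^ n j * Q j ^ m j → m = n
  analytic : ∀ j, AnalyticOnNhd ℂ (l j) V
  exp_l : ∀ j, ∀ x ∈ V, Complex.exp (l j x) * (Q j).eval x = (P j).eval x

/-- the polynomial `a_g X ^ g + … + a_0` -/
noncomputable def poly {g : ℕ} (a : Fin (g + 1) → ℤ) : ℂ[X] := ∑ i, C (a i : ℂ) * X ^ (i : ℕ)

/-- the roots of the polynomial in the set `V` -/
noncomputable def rootsIn (V : Set ℂ) {g : ℕ} (a : Fin (g + 1) → ℤ) : Finset ℂ :=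
  (poly a).roots.toFinset.filter fun z => z ∈ V

/-- the `a` with `|a_i| ≤ T` -/
noncomputable def box (g T : ℕ) : Finset (Fin (g + 1) → ℤ) := Fintype.piFinset fun _ => Finset.Icc (-(T : ℤ)) T

/-- the points whose distance to the complement of `V` is at least `1 / (k + 1)` -/
def region (V : Set ℂ) (k : ℕ) : Set ℂ := {z | Metric.ball z (1 / ((k : ℝ) + 1)) ⊆ V}

/-- the logarithms `l_j (x)`, `x` all roots of `a` in `V` -/
def logs {g r : ℕ} (V : Set ℂ) (l : Fin r → ℂ → ℂ) (a : Fin (g + 1) → ℤ) (q : {z // z ∈ rootsIn V a} × Fin r) : ℂ :=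
  l q.2 q.1

/-- The inequality of the problem for heights between `T ^ (1 / k)` and `T ^ k`: every nonzero integral polynomial `P` of
total degree at most `k` and height at most `H` satisfies `|P (x)| ≥ H ^ (-C)`. -/
def Inequality {Q : Type} (k : ℕ) (C T : ℝ) (x : Q → ℂ) : Prop :=
  ∀ H : ℝ, T ^ ((1 : ℝ) / k) ≤ H → H ≤ T ^ k → ∀ P : MvPolynomial Q ℤ, P ≠ 0 → P.totalDegree ≤ k →
    (∀ m, |((P.coeff m : ℤ) : ℝ)| ≤ H) → H ^ (-C) ≤ ‖MvPolynomial.aeval x P‖

/-- Every polynomial of degree at most `k` in each of the numbers `x q`, `q ∈ Q`, with coefficients `∑ ξ b * c b`, `b < k`,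
`c b` integers of absolute value at most `T ^ k`, is at least `T ^ (-B)` times each of its coefficients. -/
def Measure {Q : Type} [Fintype Q] [DecidableEq Q] (ξ : ℕ → ℂ) (k : ℕ) (B T : ℝ) (x : Q → ℂ) : Prop :=
  ∀ c : (Q → Fin (k + 1)) → Fin k → ℤ, (∀ l b, |(c l b : ℝ)| ≤ T ^ k) → ∀ l₀,
    T ^ (-B) * ‖∑ b : Fin k, ξ b * (c l₀ b : ℂ)‖ ≤
      ‖∑ l, (∑ b : Fin k, ξ b * (c l b : ℂ)) * ∏ q, x q ^ (l q : ℕ)‖

/-- `a` is of degree `g`, with simple roots, and `Inequality` holds for the logarithms at the roots in `region V k` -/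
def GoodZ {g r : ℕ} (V : Set ℂ) (l : Fin r → ℂ → ℂ) (k : ℕ) (C T : ℝ) (a : Fin (g + 1) → ℤ) : Prop :=
  a (Fin.last g) ≠ 0 ∧ (poly a).Separable ∧ Inequality k C T (logs (region V k) l a)

/-- `a` is of degree `g`, with simple roots, and `Measure` holds for the logarithms at the roots in `region V k` -/
def Good {g r : ℕ} (V : Set ℂ) (l : Fin r → ℂ → ℂ) (ξ : ℕ → ℂ) (k : ℕ) (B T : ℝ) (a : Fin (g + 1) → ℤ) : Prop :=
  a (Fin.last g) ≠ 0 ∧ (poly a).Separable ∧ Measure ξ k B T (logs (region V k) l a)

/-- `a` is of degree `g`, its roots are simple, of absolute value at most `R`, at distance at least `η` from each other,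
and the roots in `V` are at distance at least `η` from the complement of `V` -/
def Position (V : Set ℂ) (R η : ℝ) {g : ℕ} (a : Fin (g + 1) → ℤ) : Prop :=
  a (Fin.last g) ≠ 0 ∧ (poly a).Separable ∧ ∀ z, (poly a).eval z = 0 → ‖z‖ ≤ R ∧
    (∀ w, (poly a).eval w = 0 → w ≠ z → η ≤ ‖z - w‖) ∧ (z ∈ V → Metric.ball z η ⊆ V)

/-- **Theorem.** Let `g ≥ 1` and let `l_j` be branches on `V` of the logarithms of rational functions multiplicatively
independent modulo constants.
(1) For every `k` there are `C` and `T₀` such that for `T ≥ T₀` all but a proportion `1 / k` of the integral polynomials of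
degree at most `g` with coefficients of absolute value at most `T` are of degree `g`, with simple roots, and satisfy
`|P| ≥ H ^ (-C)` for all `H` with `T ^ (1 / k) ≤ H ≤ T ^ k` and all nonzero integral polynomials `P` of total degree at
most `k` and height at most `H` in the numbers `l_j (x)`, `x` all roots in `region V k`.
(2) The same for polynomials with coefficients `∑ ξ b * c b`, with a constant independent of `ξ`.
(3) For fixed `k`, `R`, `η > 0` and `ε > 0` there are `B`, `C` such that (2) for the roots in `V` fails for at most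
`C T ^ (g + ε)` of the about `(2 T) ^ (g + 1)` polynomials whose roots are in the position `Position V R η`. -/
theorem result (g r : ℕ) (hg : 0 < g) (V : Set ℂ) (P Q : Fin r → ℂ[X]) (l : Fin r → ℂ → ℂ) (hB : Branches V P Q l) :
    (∀ k : ℕ, 1 ≤ k → ∃ (C : ℝ) (T₀ : ℕ), ∀ T : ℕ, T₀ ≤ T →
      (k : ℝ) * ((box g T).filter fun a => ¬ GoodZ V l k C T a).card ≤ (box g T).card) ∧
    (∀ k : ℕ, 1 ≤ k → ∃ (B : ℝ) (T₀ : ℕ), ∀ T : ℕ, T₀ ≤ T → ∀ ξ : ℕ → ℂ,
      (k : ℝ) * ((box g T).filter fun a => ¬ Good V l ξ k B T a).card ≤ (box g T).card) ∧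
    ∀ (k : ℕ) (R η ε : ℝ), 0 < η → 0 < ε → ∃ B C : ℝ, ∀ T : ℕ, 1 ≤ T → ∀ ξ : ℕ → ℂ,
      (((box g T).filter fun a => Position V R η a ∧ ¬ Measure ξ k B T (logs V l a)).card : ℝ) ≤
        C * (T : ℝ) ^ ((g : ℝ) + ε) := by
  have hind := Pool.Agent.X255.RH.logR_indep hB.isPreconnected hB.isOpen hB.nonempty P Q hB.P_ne hB.Q_ne hB.independent l
    hB.analytic hB.exp_l
  have h2 := fun (k : ℕ) (hk : 1 ≤ k) => Pool.Agent.X255.RH.mea_all (g := g) hg hB.isPreconnected hB.isOpen
    (Pool.Agent.X255.RH.tame_deep V k) hB.analytic hind k hk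
  refine ⟨fun k hk => ?_, h2, fun k R η ε hη hε => ?_⟩
  · obtain ⟨B, T₀, h⟩ := h2 k hk
    refine ⟨k * max B 0, max 1 T₀, fun T hT => ?_⟩
    have hT1 : (1 : ℝ) ≤ T := by exact_mod_cast (le_max_left _ _).trans hT
    have h3 := h T ((le_max_right _ _).trans hT) (fun b => if b = 0 then 1 else 0)
    refine le_trans ?_ h3
    refine mul_le_mul_of_nonneg_left ?_ (Nat.cast_nonneg _)
    refine Nat.cast_le.2 (Finset.card_le_card fun a ha => ?_)
    rw [Finset.mem_filter] at ha ⊢
    refine ⟨ha.1, fun hgood => ha.2 ⟨hgood.1, hgood.2.1, ?_⟩⟩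
    intro H hH1 hH2 P hP hd hc
    exact hgood.2.2.height hk hT1 hH1 hH2 P hP hd hc
  · exact Pool.Agent.X255.RH.mea_eps (g := g) hg hB.isPreconnected hB.isOpen hB.analytic hind V k R η ε hη hε

end Pool.Agent.Results.MP_3cf473_nt.ConjugateLogarithms
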