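import Pool.Agent.X327.AM.Pack

/-!
# Pairs of logarithms: at every height at most one polynomial violates the measure

Q1 for `n = 2` asks, for linearly independent logarithms `l`, `μ` of algebraic numbers and a degree `d`,
for an exponent `C` with `|P(l, μ)| ≥ H ^ (-C)` for all nonzero integer polynomials `P` of degree at most
`d` and height at most `H`.

Let `l ≠ 0` be a logarithm of a root of a Gaussian rational number (`l = log 2`, `l = π i`,
`l = log (1 + 2 i) / 3`, ...). We show that for every `d` there is an exponent `κ`, which depends only on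
`l` and `d`, with the following properties for EVERY complex number `μ`, in particular for every other
logarithm of an algebraic number.

(1) Two irreducible polynomials `P`, `Q` of degree `≤ d` and height `≤ H` which are not associated are not
both smaller than `C H ^ (-κ)` at `(l, μ)`; `C` depends on `l`, `d` and a bound for `|μ|` only.

(2) For every `H ≥ 1` there is one irreducible polynomial `Q`, depending on `H`, which divides all the
polynomials `P` of degree `≤ d` and height `≤ H` with `|P(l, μ)| < C H ^ (-κ)`.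

(3) If no nonzero polynomial of degree `≤ d` vanishes at `(l, μ)`, then there are arbitrarily large `H` such
that `|P(l, μ)| ≥ H ^ (-κ)` for all the nonzero polynomials of degree `≤ d` and height `≤ H`: the inequality
of Q1 holds for arbitrarily large `H`, with an exponent which does not depend on `μ`.

(4) For `w > κ` and `1 < ρ < w / κ` there are at most `log log Y / log ρ + C` irreducible polynomials `P`
of degree `≤ d` and height `≤ Y`, up to the sign, with `|P(l, μ)| ≤ height(P) ^ (-w)`.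
-/

set_option autoImplicit false

namespace Pool.Agent.Results.MP_3cf473_nt.OneRelationPerHeight

open Polynomial

/-- The degree of `P(X, Y)` in each variable is at most `d`. -/
def DegLe (d : ℕ) (P : ℤ[X][X]) : Prop := P.natDegree ≤ d ∧ ∀ j, (P.coeff j).natDegree ≤ d

/-- The height: the largest absolute value of a coefficient of `P(X, Y)`. -/
noncomputable def height (P : ℤ[X][X]) : ℕ :=
  P.support.sup fun j => (P.coeff j).support.sup fun i => ((P.coeff j).coeff i).natAbs

/-- The value `P(l, μ)`. -/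
noncomputable def value (l μ : ℂ) (P : ℤ[X][X]) : ℂ :=
  (P.map (aeval l : ℤ[X] →ₐ[ℤ] ℂ).toRingHom).eval μ

/-- The irreducible polynomials `P` of degree at most `d` in each variable and height at most `Y`,
normalised by a positive leading coefficient, with `|P(l, μ)| ≤ height(P) ^ (-w)`. -/
def NearRelations (l μ : ℂ) (d : ℕ) (w Y : ℝ) : Set ℤ[X][X] :=
  {P | Irreducible P ∧ DegLe d P ∧ 0 < P.leadingCoeff.leadingCoeff ∧
    ‖value l μ P‖ ≤ (height P : ℝ) ^ (-w) ∧ (height P : ℝ) ≤ Y}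

theorem result (l : ℂ) (hl : l ≠ 0)
    -- `exp (m l)` is the Gaussian rational number `a / b`
    (m : ℕ) (hm : 1 ≤ m) (a b : GaussianInt) (hb : b ≠ 0)
    (hab : GaussianInt.toComplex b * Complex.exp (m * l) = GaussianInt.toComplex a)
    (d : ℕ) (hd : 1 ≤ d) :
    ∃ κ : ℝ, 0 < κ ∧
      (∀ T : ℝ, ∃ C : ℝ, 0 < C ∧ ∀ μ : ℂ, ‖μ‖ ≤ T →
        -- (1)
        (∀ P Q : ℤ[X][X], Irreducible P → DegLe d P → Irreducible Q → DegLe d Q →
          ¬ Associated P Q → ∀ H : ℝ, (height P : ℝ) ≤ H → (height Q : ℝ) ≤ H →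
          C * H ^ (-κ) ≤ max ‖value l μ P‖ ‖value l μ Q‖) ∧
        -- (2)
        (∀ H : ℝ, 1 ≤ H → ∃ Q : ℤ[X][X], Irreducible Q ∧ DegLe d Q ∧
          ∀ P : ℤ[X][X], P ≠ 0 → DegLe d P → (height P : ℝ) ≤ H →
            ‖value l μ P‖ < C * H ^ (-κ) → Q ∣ P)) ∧
      -- (3)
      (∀ μ : ℂ, (∀ P : ℤ[X][X], P ≠ 0 → DegLe d P → value l μ P ≠ 0) →
        ∀ H₀ : ℝ, ∃ H : ℝ, H₀ ≤ H ∧ 1 ≤ H ∧ ∀ P : ℤ[X][X], P ≠ 0 → DegLe d P →
          (height P : ℝ) ≤ H → H ^ (-κ) ≤ ‖value l μ P‖) ∧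
      -- (4)
      (∀ (μ : ℂ) (w ρ : ℝ), 1 < ρ → ρ < w / κ → ∃ C : ℝ, ∀ Y : ℝ, 3 ≤ Y →
        (NearRelations l μ d w Y).Finite ∧
        ((NearRelations l μ d w Y).ncard : ℝ) ≤ Real.log (Real.log Y) / Real.log ρ + C) := by
  obtain ⟨κ, hκ, h12, h3, h4⟩ := Pool.Agent.X327.AM.main l
    (Pool.Agent.X327.AM.measT_log_root l hl m hm a b hb hab) d hd
  refine ⟨κ, hκ, h12, h3, fun μ w ρ hρ hρw => ?_⟩
  obtain ⟨C, hC⟩ := h4 μ w ρ hρ hρw
  refine ⟨C, fun Y hY => ?_⟩
  have h5 : NearRelations l μ d w Y = {P ∈ {P : ℤ[X][X] | P ∈ Pool.Agent.TH456.TM.IR d ∧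
      ‖Pool.Agent.TH456.TM.vl l μ P‖ ≤ (Pool.Agent.TH456.TM.hgt P : ℝ) ^ (-w)} |
        (Pool.Agent.TH456.TM.hgt P : ℝ) ≤ Y} := by
    ext P
    constructor
    · rintro ⟨g1, g2, g3, g4, g5⟩
      exact ⟨⟨⟨g1, g2.1, g2.2, g3⟩, g4⟩, g5⟩
    · rintro ⟨⟨⟨g1, g2, g2', g3⟩, g4⟩, g5⟩
      exact ⟨g1, ⟨g2, g2'⟩, g3, g4, g5⟩
  rw [h5]
  exact hC Y hY

end Pool.Agent.Results.MP_3cf473_nt.OneRelationPerHeight
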