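import Pool.Agent.Results.MP_3cf473_nt.ApproximationsOfAllNumbers
import Pool.Agent.X174.MasterTup

/-!
# A measure of algebraic independence for the logarithms at ALL simultaneous approximations of `n` numbers

For each `j ≤ n` let `P_ji / Q_ji`, `i ≤ r`, be rational functions which are multiplicatively independent modulo constants and
`l_ji` branches of `log (P_ji / Q_ji)` on a connected open set `V_j`. For every `ω > 0` there is ONE set `E ⊂ ℂ^n` of Hausdorff
dimension at most `2 m (n - 1) / ω` such that for all `x ∈ ∏ V_j` outside `E`, all number fields `F ⊂ ℂ` of degree at most `m`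
(for instance `ℚ`), all `d` and `A` there are `B` and `T₁` such that for all `T ≥ T₁` and ALL simultaneous approximations
`t ∈ F^n` of `x`, of height at most `T`, with `|t_j - x_j| ≤ T ^ (-ω)` for all `j`, the `n r` logarithms `l_ji(t_j)` satisfy
`|P (l(t))| > T ^ (-B) |c|` for all polynomials `P` of degree at most `d` in each variable whose coefficients are polynomials of
degree at most `d` in the `u_jk(t_j) / w_j(t_j)` and in given complex numbers `ξ_i`, with coefficients in the integers of `F` of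
height at most `T ^ A`, and all nonzero coefficients `c` of `P`; in particular, for every `k ≥ 1`, `|P (l(t))| ≥ H ^ (-C)` for
all nonzero integral polynomials `P` of degree at most `k` in each variable and height at most `H`, for all `H` between
`T ^ (1 / k)` and `T ^ k`. For `ω > 2 m (n - 1) / n` almost all `x ∈ ℝ^n` are outside `E`. Exceptions for `n ≥ 2` are unavoidable:
for the branches of `log t_1` and `log t_2` these are the multiplicatively dependent `t_1`, `t_2`.

The case `n = 1` is the result `ApproximationsOfAllNumbers`.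
-/

set_option autoImplicit false

open Polynomial MeasureTheory NumberField

namespace Pool.Agent.Results.MP_3cf473_nt.SimultaneousApproximations

open Pool.Agent.X39.Near (Size)
open Pool.Agent.X174.NearTup (DependentT coefAtT)
open ApproximationsOfAllNumbers (Branches)

/-- the inequality `|P (y)| ≥ H ^ (-C)` for all nonzero integral polynomials of degree at most `k` in each variable and height
at most `H`, for all `H` between `T ^ (1 / k)` and `T ^ k` -/
def InequalityT {J : Type} (k : ℕ) (C T : ℝ) (y : J → ℂ) : Prop :=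
  ∀ (H : ℝ) (P : MvPolynomial J ℤ), T ^ (1 / (k : ℝ)) ≤ H → H ≤ T ^ (k : ℝ) → P ≠ 0 → (∀ x, P.degreeOf x ≤ k) →
    (∀ s, |((P.coeff s : ℤ) : ℝ)| ≤ H) → H ^ (-C) ≤ ‖MvPolynomial.aeval y P‖

/-- an integral polynomial as a polynomial over the ring of the coefficients -/
theorem related_of_int {J : Type} {n q g : ℕ} {f : Fin n → J → ℂ → ℂ} {u : Fin n → Fin q → Polynomial ℂ}
    {w : Fin n → Polynomial ℂ} {ξ : Fin g → ℂ} {F : Type} [Field F] [NumberField F] {ι : F →+* ℂ} {d : ℕ} {A B T : ℝ}
    {t : Fin n → F} (hT : 0 ≤ T) (P : MvPolynomial (Fin n × J) ℤ) (h0 : P ≠ 0) (hd : ∀ x, P.degreeOf x ≤ d)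
    (hc : ∀ s, |((P.coeff s : ℤ) : ℝ)| ≤ T ^ A)
    (hP : ‖MvPolynomial.aeval (fun x : Fin n × J => f x.1 x.2 (ι (t x.1))) P‖ ≤ T ^ (-B)) :
    DependentT f u w ξ F ι d A B T t := by
  classical
  set cc : ℤ →+* MvPolynomial ((Fin n × Fin q) ⊕ Fin g) (𝓞 F) := MvPolynomial.C.comp (Int.castRingHom (𝓞 F)) with hcc
  have hcomp : (coefAtT u w ξ F ι t).comp cc = Int.castRingHom ℂ := RingHom.ext_int _ _
  have hval : ∀ z : ℤ, coefAtT u w ξ F ι t (cc z) = (z : ℂ) := fun z => by
    have := RingHom.congr_fun hcomp z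
    simpa using this
  obtain ⟨e₀, he₀⟩ := MvPolynomial.ne_zero_iff.1 h0
  refine ⟨MvPolynomial.map cc P, fun x => (Pool.Agent.X39.Near.degreeOf_map _ P x).trans (hd x), fun e v => ?_,
    fun e s φ => ?_, e₀, ?_, ?_⟩
  · rw [MvPolynomial.coeff_map, hcc]
    simp only [RingHom.comp_apply]
    rw [MvPolynomial.degreeOf_C]
    exact Nat.zero_le _
  · rw [MvPolynomial.coeff_map, hcc]
    simp only [RingHom.comp_apply, MvPolynomial.coeff_C]
    split_ifs
    · simp only [eq_intCast, map_intCast, Complex.norm_intCast]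
      exact hc e
    · simp only [map_zero, norm_zero]
      positivity
  · rw [MvPolynomial.coeff_map, hval]
    exact_mod_cast he₀
  · rw [MvPolynomial.coeff_map, hval, MvPolynomial.eval₂_map, hcomp]
    have h1 : MvPolynomial.eval₂ (Int.castRingHom ℂ) (fun x : Fin n × J => f x.1 x.2 (ι (t x.1))) P =
        MvPolynomial.aeval (fun x : Fin n × J => f x.1 x.2 (ι (t x.1))) P := by
      rw [MvPolynomial.aeval_def]
      rfl
    rw [h1]
    have h2 : (1 : ℝ) ≤ ‖((P.coeff e₀ : ℤ) : ℂ)‖ := by
      rw [Complex.norm_intCast]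
      exact_mod_cast Int.one_le_abs he₀
    calc _ ≤ T ^ (-B) := hP
      _ = T ^ (-B) * 1 := (mul_one _).symm
      _ ≤ _ := mul_le_mul_of_nonneg_left h2 (by positivity)

/-- **Theorem.** Let `n ≥ 1`, `m` be natural numbers; for each `j < n` let `l_ji` be branches on `V_j` of the logarithms of
rational functions multiplicatively independent modulo constants and `u_jk`, `w_j` complex polynomials, `w_j` without zeros on
`V_j`; let `ξ_1, …, ξ_g` be complex numbers and `ω > 0`. There is a set `E ⊂ ℂ^n` of Hausdorff dimension at most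
`2 m (n - 1) / ω`, which contains almost no real point if `2 m (n - 1) < n ω`, such that for all `x` outside `E` with
`x_j ∈ V_j` and all number fields `F` of degree at most `m` with an embedding `ι` in `ℂ`:
(1) for all `k ≥ 1` there are `C`, `T₁` such that for all `T ≥ T₁` and all `t ∈ F^n`, quotients of integers with conjugates at
most `T`, with `|ι t_j - x_j| ≤ T ^ (-ω)` for all `j`, the inequality `InequalityT` holds for the `n r` numbers `l_ji(t_j)`;
(2) for all `d`, `A` there are `B`, `T₁` such that for all `T ≥ T₁` and all such `t` these numbers are not dependent. -/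
theorem result {n r q g : ℕ} (hn : 1 ≤ n) (m : ℕ) (V : Fin n → Set ℂ) (P Q : Fin n → Fin r → ℂ[X])
    (l : Fin n → Fin r → ℂ → ℂ) (hB : ∀ j, Branches (V j) (P j) (Q j) (l j))
    (u : Fin n → Fin q → Polynomial ℂ) (w : Fin n → Polynomial ℂ) (hw : ∀ j, ∀ t ∈ V j, (w j).eval t ≠ 0)
    (ξ : Fin g → ℂ) (ω : ℝ) (hω : 0 < ω) :
    ∃ E : Set (Fin n → ℂ), dimH E ≤ ENNReal.ofReal (2 * m * ((n : ℝ) - 1) / ω) ∧
      (2 * m * ((n : ℝ) - 1) < n * ω → ∀ᵐ x : Fin n → ℝ, (fun j => (x j : ℂ)) ∉ E) ∧
      ∀ x : Fin n → ℂ, (∀ j, x j ∈ V j) → x ∉ E → ∀ (F : Type) [Field F] [NumberField F],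
        Module.finrank ℚ F ≤ m → ∀ (ι : F →+* ℂ),
        (∀ k : ℕ, 1 ≤ k → ∃ C T₁ : ℝ, ∀ T : ℝ, T₁ ≤ T → ∀ t : Fin n → F, (∀ j, Size F T (t j)) →
          (∀ j, ‖ι (t j) - x j‖ ≤ T ^ (-ω)) → InequalityT k C T (fun y : Fin n × Fin r => l y.1 y.2 (ι (t y.1)))) ∧
        ∀ d A : ℕ, ∃ B T₁ : ℝ, ∀ T : ℝ, T₁ ≤ T → ∀ t : Fin n → F, (∀ j, Size F T (t j)) →
          (∀ j, ‖ι (t j) - x j‖ ≤ T ^ (-ω)) → ¬ DependentT l u w ξ F ι d A B T t := by
  obtain ⟨E, h1, h2, h3⟩ := Pool.Agent.X174.NearTup.masterTup hn m V (fun j => (hB j).isOpen) l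
    (fun j i t ht => (hB j).analytic i t ht)
    (fun j => Pool.Agent.X39.Near.locInd_of (hB j).isPreconnected (l j) (fun i t ht => (hB j).analytic i t ht)
      (Pool.Agent.X39.Near.aindep_of_indep (Pool.Agent.X255.RH.logR_indep (hB j).isPreconnected (hB j).isOpen
        (hB j).nonempty (P j) (Q j) (hB j).P_ne (hB j).Q_ne (hB j).independent (l j) (hB j).analytic (hB j).exp_l)))
    u w hw ξ hω
  refine ⟨E, h1, h2, fun x hx hxE F _ _ hF ι => ⟨fun k hk => ?_, h3 x hx hxE F hF ι⟩⟩
  obtain ⟨B, T₁, h⟩ := h3 x hx hxE F hF ι k k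
  have hk1 : (1 : ℝ) ≤ k := by exact_mod_cast hk
  have hkp : (0 : ℝ) < k := by linarith
  refine ⟨k * |B|, max T₁ 1, fun T hT t ht1 ht2 H P' hH1 hH2 hP0 hPd hPc => ?_⟩
  have hT1 : 1 ≤ T := (le_max_right _ _).trans hT
  have hTp : 0 < T := by linarith
  by_contra hcon
  push Not at hcon
  refine h T ((le_max_left _ _).trans hT) t ht1 ht2 (related_of_int hTp.le P' hP0 hPd (fun s => (hPc s).trans ?_) ?_)
  · rw [Real.rpow_natCast] at hH2 ⊢
    exact hH2
  · refine hcon.le.trans ?_
    have hHp : 0 < T ^ (1 / (k : ℝ)) := by positivity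
    calc H ^ (-(k * |B|)) ≤ (T ^ (1 / (k : ℝ))) ^ (-(k * |B|)) :=
          Real.rpow_le_rpow_of_nonpos hHp hH1 (by nlinarith [abs_nonneg B])
      _ = T ^ (-|B|) := by
          rw [← Real.rpow_mul hTp.le]
          congr 1
          field_simp
      _ ≤ T ^ (-B) := Real.rpow_le_rpow_of_exponent_le hT1 (by linarith [le_abs_self B])

end Pool.Agent.Results.MP_3cf473_nt.SimultaneousApproximations
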